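import Pool.Agent.K1H35.SH.Stm2

set_option autoImplicit false

/-!
# Pieces HV and RTW of the project SQ
-/

namespace Pool.Agent.K1H21.SQ

open Pool.Agent.K1H35.SH Finset

lemma mem_nb {n : ℕ} (G : SimpleGraph (Fin n)) (v x : Fin n) : x ∈ nb G v ↔ G.Adj v x := by
  unfold nb; simp

/-- neighbours in `H` which are not neighbours in `G` -/
noncomputable def Bv {n : ℕ} (G H : SimpleGraph (Fin n)) (v : Fin n) : Finset (Fin n) := by
  classical exact nb H v \ nb G v

lemma card_Bv_le {n : ℕ} (G H : SimpleGraph (Fin n)) (f : Fin n → Fin n → Fin n) (hT : Twin G H f)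
    (v : Fin n) : (Bv G H v).card ≤ (Sd G f v).card := by
  classical
  have hsub : Bv G H v ⊆ (Sd G f v).image (f v) := by
    intro w hw
    unfold Bv at hw
    rw [mem_sdiff] at hw
    have h1 : w ∈ f v '' (nb G v : Set (Fin n)) := by
      rw [(hT v).2.1]; exact hw.1
    obtain ⟨x, hx, rfl⟩ := h1
    rw [mem_image]
    refine ⟨x, ?_, rfl⟩
    unfold Sd
    rw [mem_filter]
    refine ⟨hx, fun h => hw.2 ?_⟩
    rw [h]; exact hx
  exact (card_le_card hsub).trans card_image_le

lemma card_nb_eq {n : ℕ} (G H : SimpleGraph (Fin n)) (f : Fin n → Fin n → Fin n) (hT : Twin G H f)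
    (v : Fin n) : (nb H v).card = (nb G v).card := by
  classical
  have h1 : nb H v = (nb G v).image (f v) := by
    apply coe_injective
    rw [coe_image, (hT v).2.1]
  rw [h1, card_image_of_injOn (hT v).1]

lemma card_Bv_symm {n : ℕ} (G H : SimpleGraph (Fin n)) (f : Fin n → Fin n → Fin n) (hT : Twin G H f)
    (v : Fin n) : (Bv H G v).card = (Bv G H v).card := by
  classical
  unfold Bv
  exact (card_sdiff_comm (card_nb_eq G H f hT v).symm)

lemma card_edges {n : ℕ} (G H : SimpleGraph (Fin n)) :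
    ∃ E : Finset (Sym2 (Fin n)), 2 * E.card = ∑ v, (Bv G H v).card ∧
      ∀ a b, s(a, b) ∈ E ↔ H.Adj a b ∧ ¬ G.Adj a b := by
  classical
  refine ⟨(H \ G).edgeFinset, ?_, ?_⟩
  · have h0 : 2 * ((H \ G).edgeFinset).card = ∑ v, (H \ G).degree v := by
      have h1 := SimpleGraph.sum_degrees_eq_twice_card_edges (H \ G)
      convert h1.symm
    rw [h0]
    refine sum_congr rfl (fun v _ => ?_)
    rw [← SimpleGraph.card_neighborFinset_eq_degree]
    congr 1
    ext x
    unfold Bv
    rw [SimpleGraph.mem_neighborFinset, SimpleGraph.sdiff_adj, mem_sdiff, mem_nb, mem_nb]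
  · intro a b
    rw [SimpleGraph.mem_edgeFinset, SimpleGraph.mem_edgeSet, SimpleGraph.sdiff_adj]

theorem t_HV : S_HV := by
  classical
  intro n d h G H f hG hT hsum
  constructor
  · intro h0
    rw [h0, mul_zero] at hsum
    have h1 : ∀ v, (Sd G f v).card = 0 := by
      intro v
      have h2 := single_le_sum (f := fun v => (Sd G f v).card) (fun v _ => Nat.zero_le _) (mem_univ v)
      have h3 : (Sd G f v).card ≤ 0 := h2.trans hsum
      omega
    have h3 : ∀ v, ∀ x ∈ nb G v, f v x = x := by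
      intro v x hx
      by_contra hne
      have h4 : x ∈ Sd G f v := by
        unfold Sd
        exact mem_filter.2 ⟨hx, hne⟩
      rw [card_eq_zero.1 (h1 v)] at h4
      simp at h4
    ext v x
    have h5 : x ∈ (nb H v : Set (Fin n)) ↔ x ∈ (nb G v : Set (Fin n)) := by
      rw [← (hT v).2.1]
      constructor
      · rintro ⟨y, hy, rfl⟩
        rw [h3 v y hy]; exact hy
      · intro hx
        exact ⟨x, hx, h3 v x hx⟩
    rw [mem_coe, mem_coe, mem_nb, mem_nb] at h5
    exact h5
  · obtain ⟨E, hE, hE'⟩ := card_edges G H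
    obtain ⟨E2, hE2, hE2'⟩ := card_edges H G
    have hc1 : ∑ v, (Bv G H v).card ≤ ∑ v, (Sd G f v).card :=
      sum_le_sum (fun v _ => card_Bv_le G H f hT v)
    have hc2 : ∑ v, (Bv H G v).card = ∑ v, (Bv G H v).card :=
      sum_congr rfl (fun v _ => card_Bv_symm G H f hT v)
    refine ⟨Hv h G f, f, E ∪ E2, rfl, ?_, ?_, ?_⟩
    · have := card_union_le E E2
      omega
    · intro z hz
      refine ⟨(hT z).1, ?_⟩
      have h1 : ({x ∈ nb G z | f z x ≠ x} : Set (Fin n)) = (Sd G f z : Set (Fin n)) := by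
        ext x
        unfold Sd
        simp
      rw [h1, Set.ncard_coe_finset]
      unfold Hv at hz
      exact (mem_filter.1 hz).2
    · intro z _ x hx y hy _
      rw [(hT z).2.2 x hx y hy, mem_union, hE', hE2']
      unfold Xor
      tauto

theorem t_RTW : S_RTW := by
  classical
  intro n G hrig W H φ hball
  choose F hF1 hF2 using hball
  have hin : ∀ v x, G.Adj v x → x ∈ ball G v := fun v x hx => Or.inr hx
  let f : Fin n → Fin n → Fin n := fun v x =>
    if hx : x ∈ ball G v then φ.symm (F v ⟨x, hx⟩ : W) else x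
  have hf : ∀ v x (hx : x ∈ ball G v), φ (f v x) = (F v ⟨x, hx⟩ : W) := by
    intro v x hx
    simp only [f, dif_pos hx, Equiv.apply_symm_apply]
  have hv : ∀ v x (hx : x ∈ ball G v), G.Adj v x ↔ H.Adj (φ v) (F v ⟨x, hx⟩ : W) := by
    intro v x hx
    have h1 := hF2 v ⟨v, Or.inl rfl⟩ ⟨x, hx⟩
    rw [hF1 v] at h1
    exact h1
  have hT : Twin G (H.comap φ) f := by
    intro v
    refine ⟨?_, ?_, ?_⟩
    · intro x hx y hy hxy
      rw [mem_coe, mem_nb] at hx hy
      have h1 := hf v x (hin v x hx)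
      have h2 := hf v y (hin v y hy)
      rw [hxy, h2] at h1
      have h3 := (F v).injective (Subtype.ext h1)
      exact (congrArg Subtype.val h3).symm
    · ext y
      constructor
      · rintro ⟨x, hx, rfl⟩
        rw [mem_coe, mem_nb] at hx ⊢
        rw [SimpleGraph.comap_adj, hf v x (hin v x hx)]
        exact (hv v x (hin v x hx)).1 hx
      · intro hy
        rw [mem_coe, mem_nb, SimpleGraph.comap_adj] at hy
        obtain ⟨⟨x, hx⟩, hx2⟩ := (F v).surjective ⟨φ y, Or.inr hy⟩
        have hx3 : (F v ⟨x, hx⟩ : W) = φ y := congrArg Subtype.val hx2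
        refine ⟨x, ?_, ?_⟩
        · rw [mem_coe, mem_nb, hv v x hx, hx3]
          exact hy
        · apply φ.injective
          rw [hf v x hx, hx3]
    · intro x hx y hy
      rw [mem_nb] at hx hy
      rw [SimpleGraph.comap_adj, hf v x (hin v x hx), hf v y (hin v y hy)]
      exact hF2 v ⟨x, hin v x hx⟩ ⟨y, hin v y hy⟩
  have heq := hrig _ f hT
  rw [← heq]
  exact ⟨SimpleGraph.Iso.comap φ H⟩

end Pool.Agent.K1H21.SQ
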